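import Mathlib

/-!
Euler-Maclaurin summation for the zeta function with two correction terms.
-/

set_option autoImplicit false

open Finset Filter Topology Complex

namespace Pool.Agent.H358R3.W

theorem hasDerivAt_cp {r r' : ℂ} {x : ℝ} (hx : 0 < x) (h : r' = r - 1) :
    HasDerivAt (fun y : ℝ => (y : ℂ) ^ r) (r * (x : ℂ) ^ r') x := by
  have h1 : HasDerivAt (fun z : ℂ => z ^ r) (r * (x : ℂ) ^ (r - 1) * 1) (x : ℂ) :=
    (hasDerivAt_id (x : ℂ)).cpow_const (Or.inl (by simpa using hx))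
  rw [mul_one, ← h] at h1
  exact h1.comp_ofReal

theorem poly_bound {u : ℝ} (h0 : 0 ≤ u) (h1 : u ≤ 1) :
    |(u ^ 3 - 3 / 2 * u ^ 2 + u / 2) / 6| ≤ 1 / 120 := by
  rw [abs_le]
  constructor
  · rcases le_total u (1 / 2) with h | h
    · nlinarith [mul_nonneg h0 (sub_nonneg.2 h1), mul_nonneg (mul_nonneg h0 (sub_nonneg.2 h1)) (sub_nonneg.2 h)]
    · have hw : 0 ≤ u - 1 / 2 := by linarith
      nlinarith [mul_nonneg (sq_nonneg (u - 1 / 2 - 29 / 100)) (by linarith : (0 : ℝ) ≤ u - 1 / 2 + 58 / 100)]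
  · rcases le_total u (1 / 2) with h | h
    · have hw : 0 ≤ 1 / 2 - u := by linarith
      nlinarith [mul_nonneg (sq_nonneg (1 / 2 - u - 29 / 100)) (by linarith : (0 : ℝ) ≤ 1 / 2 - u + 58 / 100)]
    · nlinarith [mul_nonneg h0 (sub_nonneg.2 h1), mul_nonneg (mul_nonneg h0 (sub_nonneg.2 h1)) (sub_nonneg.2 h)]

/-- the approximation of the tail -/
noncomputable def T (s : ℂ) (n : ℕ) : ℂ :=
  (n : ℂ) ^ (1 - s) / (s - 1) + (n : ℂ) ^ (-s) / 2 + s / 12 * (n : ℂ) ^ (-s - 1)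

noncomputable def Ph (s : ℂ) (n : ℕ) (y : ℝ) : ℂ :=
  (y : ℂ) ^ (1 - s) / (1 - s) -
    ((y : ℂ) ^ (-s) * (((y : ℂ) - n) - 1 / 2) -
      -s * (y : ℂ) ^ (-s - 1) * ((((y : ℂ) - n) ^ 2 - ((y : ℂ) - n) + 1 / 6) / 2) +
      s * (s + 1) * (y : ℂ) ^ (-s - 2) *
        ((((y : ℂ) - n) ^ 3 - 3 / 2 * ((y : ℂ) - n) ^ 2 + ((y : ℂ) - n) / 2) / 6))

theorem Ph_deriv (s : ℂ) (hs : s ≠ 1) (n : ℕ) {x : ℝ} (hx : 0 < x) :
    HasDerivAt (Ph s n) (s * (s + 1) * (s + 2) * (x : ℂ) ^ (-s - 3) *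
      ((((x : ℂ) - n) ^ 3 - 3 / 2 * ((x : ℂ) - n) ^ 2 + ((x : ℂ) - n) / 2) / 6)) x := by
  have hs' : (1 : ℂ) - s ≠ 0 := sub_ne_zero.2 (Ne.symm hs)
  have a1 := hasDerivAt_cp (r := 1 - s) (r' := -s) hx (by ring)
  have a2 := hasDerivAt_cp (r := -s) (r' := -s - 1) hx (by ring)
  have a3 := hasDerivAt_cp (r := -s - 1) (r' := -s - 2) hx (by ring)
  have a4 := hasDerivAt_cp (r := -s - 2) (r' := -s - 3) hx (by ring)
  have hU : HasDerivAt (fun y : ℝ => (y : ℂ) - n) 1 x :=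
    ((hasDerivAt_id x).ofReal_comp).sub_const _
  have h := (a1.div_const (1 - s)).sub
    (((a2.mul (hU.sub_const (1 / 2))).sub
      ((a3.const_mul (-s)).mul ((((hU.pow 2).sub hU).add_const (1 / 6 : ℂ)).div_const 2))).add
      ((a4.const_mul (s * (s + 1))).mul
        ((((hU.pow 3).sub ((hU.pow 2).const_mul (3 / 2 : ℂ))).add (hU.div_const 2)).div_const 6)))
  refine (h.congr_deriv ?_).congr_of_eventuallyEq ?_
  · simp only [Pi.pow_apply, Pi.sub_apply, Pi.add_apply, Pi.mul_apply]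
    field_simp
    push_cast
    ring
  · exact Filter.Eventually.of_forall fun y => rfl

end Pool.Agent.H358R3.W
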