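import Mathlib
import Pool.Agent.H358R3.W.EM0

/-!
Euler-Maclaurin summation for the zeta function: the step and the tail.
-/

set_option autoImplicit false

open Finset Filter Topology Complex

namespace Pool.Agent.H358R3.W

theorem Ph_norm (s : ℂ) (n : ℕ) {x : ℝ} (hx : 0 < x) (h0 : (n : ℝ) ≤ x) (h1 : x ≤ n + 1) :
    ‖s * (s + 1) * (s + 2) * (x : ℂ) ^ (-s - 3) *
      ((((x : ℂ) - n) ^ 3 - 3 / 2 * ((x : ℂ) - n) ^ 2 + ((x : ℂ) - n) / 2) / 6)‖ ≤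
      ‖s‖ * ‖s + 1‖ * ‖s + 2‖ / 120 * x ^ (-s.re - 3) := by
  have e : ((((x : ℂ) - n) ^ 3 - 3 / 2 * ((x : ℂ) - n) ^ 2 + ((x : ℂ) - n) / 2) / 6) =
      ((((x - n) ^ 3 - 3 / 2 * (x - n) ^ 2 + (x - n) / 2) / 6 : ℝ) : ℂ) := by
    push_cast
    ring
  rw [norm_mul, norm_mul, norm_mul, norm_mul, e, Complex.norm_real, Real.norm_eq_abs,
    Complex.norm_cpow_eq_rpow_re_of_pos hx]
  have h2 := poly_bound (u := x - n) (by linarith) (by linarith)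
  have h3 : (-s - 3).re = -s.re - 3 := by simp
  rw [h3]
  have h4 : 0 ≤ ‖s‖ * ‖s + 1‖ * ‖s + 2‖ * x ^ (-s.re - 3) := by positivity
  calc ‖s‖ * ‖s + 1‖ * ‖s + 2‖ * x ^ (-s.re - 3) *
      |((x - n) ^ 3 - 3 / 2 * (x - n) ^ 2 + (x - n) / 2) / 6|
      ≤ ‖s‖ * ‖s + 1‖ * ‖s + 2‖ * x ^ (-s.re - 3) * (1 / 120) :=
        mul_le_mul_of_nonneg_left h2 h4
    _ = _ := by ring

theorem step (s : ℂ) (hs0 : 0 < s.re) (hs : s ≠ 1) (n : ℕ) (hn : 1 ≤ n) :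
    ‖T s n - T s (n + 1) - (n : ℂ) ^ (-s)‖ ≤ ‖s‖ * ‖s + 1‖ * ‖s + 2‖ / (120 * (s.re + 2)) *
      ((n : ℝ) ^ (-s.re - 2) - ((n + 1 : ℕ) : ℝ) ^ (-s.re - 2)) := by
  have hn0 : (0 : ℝ) < n := by exact_mod_cast hn
  set K : ℝ := ‖s‖ * ‖s + 1‖ * ‖s + 2‖ with hK
  set B : ℝ → ℝ := fun y => K / (120 * (s.re + 2)) * ((n : ℝ) ^ (-s.re - 2) - y ^ (-s.re - 2))
    with hB
  have hB' : ∀ y : ℝ, 0 < y → HasDerivAt B (K / 120 * y ^ (-s.re - 3)) y := by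
    intro y hy
    have h1 := Real.hasDerivAt_rpow_const (x := y) (p := -s.re - 2) (Or.inl hy.ne')
    have h2 := (h1.const_sub ((n : ℝ) ^ (-s.re - 2))).const_mul (K / (120 * (s.re + 2)))
    refine h2.congr_deriv ?_
    have h3 : -s.re - 2 - 1 = -s.re - 3 := by ring
    rw [h3]
    have h4 : s.re + 2 ≠ 0 := by linarith
    field_simp
    ring
  have hder : ∀ y : ℝ, 0 < y → HasDerivAt (fun y => Ph s n y - Ph s n n)
      (s * (s + 1) * (s + 2) * (y : ℂ) ^ (-s - 3) *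
      ((((y : ℂ) - n) ^ 3 - 3 / 2 * ((y : ℂ) - n) ^ 2 + ((y : ℂ) - n) / 2) / 6)) y := by
    intro y hy
    exact (Ph_deriv s hs n hy).sub_const _
  have key := image_norm_le_of_norm_deriv_right_le_deriv_boundary' (a := (n : ℝ)) (b := (n : ℝ) + 1)
    (f := fun y => Ph s n y - Ph s n n)
    (f' := fun y : ℝ => s * (s + 1) * (s + 2) * (y : ℂ) ^ (-s - 3) *
      ((((y : ℂ) - n) ^ 3 - 3 / 2 * ((y : ℂ) - n) ^ 2 + ((y : ℂ) - n) / 2) / 6))
    (B := B) (B' := fun y => K / 120 * y ^ (-s.re - 3))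
    (fun y hy => (hder y (lt_of_lt_of_le hn0 hy.1)).continuousAt.continuousWithinAt)
    (fun y hy => (hder y (lt_of_lt_of_le hn0 hy.1)).hasDerivWithinAt)
    (by simp [hB])
    (fun y hy => (hB' y (lt_of_lt_of_le hn0 hy.1)).continuousAt.continuousWithinAt)
    (fun y hy => (hB' y (lt_of_lt_of_le hn0 hy.1)).hasDerivWithinAt)
    (fun y hy => Ph_norm s n (lt_of_lt_of_le hn0 hy.1) hy.1 hy.2.le)
    (x := (n : ℝ) + 1) ⟨by linarith, le_rfl⟩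
  have e1 : Ph s n ((n : ℝ) + 1) - Ph s n n = T s n - T s (n + 1) - (n : ℂ) ^ (-s) := by
    have hs1 : (1 : ℂ) - s ≠ 0 := sub_ne_zero.2 (Ne.symm hs)
    have hs2 : s - 1 ≠ 0 := sub_ne_zero.2 hs
    unfold Ph T
    have e2 : (((n : ℝ) + 1 : ℝ) : ℂ) = ((n + 1 : ℕ) : ℂ) := by push_cast; ring
    have e3 : ((n : ℝ) : ℂ) = (n : ℂ) := by push_cast; ring
    rw [e2, e3]
    have e4 : ((n + 1 : ℕ) : ℂ) - n = 1 := by push_cast; ring
    have e5 : (n : ℂ) - n = 0 := sub_self _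
    rw [e4, e5]
    have e6 : ∀ z : ℂ, z / (1 - s) = - (z / (s - 1)) := by
      intro z
      rw [← neg_sub s 1, div_neg]
    rw [e6, e6]
    ring
  rw [← e1]
  refine key.trans (le_of_eq ?_)
  simp only [hB]
  push_cast
  ring

theorem partial_sum (s : ℂ) (hs0 : 0 < s.re) (hs : s ≠ 1) (N : ℕ) (hN : 1 ≤ N) (M : ℕ)
    (hM : N ≤ M) :
    ‖T s N - T s M - ∑ n ∈ Ico N M, (n : ℂ) ^ (-s)‖ ≤
      ‖s‖ * ‖s + 1‖ * ‖s + 2‖ / (120 * (s.re + 2)) *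
      ((N : ℝ) ^ (-s.re - 2) - (M : ℝ) ^ (-s.re - 2)) := by
  induction M, hM using Nat.le_induction with
  | base => simp
  | succ M hM ih =>
    have h1 := step s hs0 hs M (hN.trans hM)
    rw [Finset.sum_Ico_succ_top hM]
    have e : T s N - T s (M + 1) - (∑ n ∈ Ico N M, (n : ℂ) ^ (-s) + (M : ℂ) ^ (-s)) =
        (T s N - T s M - ∑ n ∈ Ico N M, (n : ℂ) ^ (-s)) +
        (T s M - T s (M + 1) - (M : ℂ) ^ (-s)) := by ring
    rw [e]
    refine (norm_add_le _ _).trans ((add_le_add ih h1).trans (le_of_eq ?_))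
    ring

theorem tendsto_cpow_zero {w : ℂ} (hw : w.re < 0) :
    Tendsto (fun n : ℕ => (n : ℂ) ^ w) atTop (𝓝 0) := by
  rw [tendsto_zero_iff_norm_tendsto_zero]
  have h1 : Tendsto (fun n : ℕ => (n : ℝ) ^ (-(-w.re))) atTop (𝓝 0) :=
    (tendsto_rpow_neg_atTop (by linarith)).comp tendsto_natCast_atTop_atTop
  refine h1.congr' ?_
  filter_upwards [eventually_ge_atTop 1] with n hn
  have hn0 : (0 : ℝ) < n := by exact_mod_cast hn
  have := Complex.norm_cpow_eq_rpow_re_of_pos hn0 w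
  rw [neg_neg, ← this]
  norm_cast

theorem tendsto_T {s : ℂ} (hs : 1 < s.re) : Tendsto (fun n : ℕ => T s n) atTop (𝓝 0) := by
  have h1 := (tendsto_cpow_zero (w := 1 - s) (by simp; linarith)).div_const (s - 1)
  have h2 := (tendsto_cpow_zero (w := -s) (by simp; linarith)).div_const 2
  have h3 := (tendsto_cpow_zero (w := -s - 1) (by simp; linarith)).const_mul (s / 12)
  have h := (h1.add h2).add h3
  simpa [T] using h

theorem tail (s : ℂ) (hs : 1 < s.re) (N : ℕ) (hN : 1 ≤ N) :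
    ‖riemannZeta s - (∑ n ∈ Ico 1 N, (n : ℂ) ^ (-s) + T s N)‖ ≤
      ‖s‖ * ‖s + 1‖ * ‖s + 2‖ / (120 * (s.re + 2)) * (N : ℝ) ^ (-s.re - 2) := by
  have hs0 : 0 < s.re := by linarith
  have hs1 : s ≠ 1 := by
    rintro rfl
    simp at hs
  have hsum := (Complex.summable_one_div_nat_cpow.2 hs).hasSum
  rw [← zeta_eq_tsum_one_div_nat_cpow hs] at hsum
  have ht := hsum.tendsto_sum_nat
  have hne : s ≠ 0 := by
    rintro rfl
    simp at hs0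
  have ht2 : Tendsto (fun M : ℕ => ∑ n ∈ Ico 1 M, (n : ℂ) ^ (-s)) atTop (𝓝 (riemannZeta s)) := by
    refine ht.congr' ?_
    filter_upwards [eventually_ge_atTop 1] with M hM
    rw [Finset.range_eq_Ico, Finset.sum_eq_sum_Ico_succ_bot (by omega)]
    simp only [Nat.cast_zero, Complex.zero_cpow hne, div_zero, zero_add]
    refine Finset.sum_congr rfl fun n _ => ?_
    rw [Complex.cpow_neg, one_div]
  have h3 : Tendsto (fun M : ℕ => ‖T s N - T s M - (∑ n ∈ Ico 1 M, (n : ℂ) ^ (-s) -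
      ∑ n ∈ Ico 1 N, (n : ℂ) ^ (-s))‖) atTop
      (𝓝 ‖T s N - 0 - (riemannZeta s - ∑ n ∈ Ico 1 N, (n : ℂ) ^ (-s))‖) :=
    (((tendsto_const_nhds.sub (tendsto_T hs)).sub (ht2.sub tendsto_const_nhds))).norm
  have h4 : ‖T s N - 0 - (riemannZeta s - ∑ n ∈ Ico 1 N, (n : ℂ) ^ (-s))‖ =
      ‖riemannZeta s - (∑ n ∈ Ico 1 N, (n : ℂ) ^ (-s) + T s N)‖ := by
    rw [← norm_neg]
    congr 1
    ring
  rw [← h4]
  refine le_of_tendsto h3 ?_
  filter_upwards [eventually_ge_atTop N] with M hM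
  have h5 := partial_sum s hs0 hs1 N hN M hM
  have h6 : ∑ n ∈ Ico 1 M, (n : ℂ) ^ (-s) - ∑ n ∈ Ico 1 N, (n : ℂ) ^ (-s) =
      ∑ n ∈ Ico N M, (n : ℂ) ^ (-s) := by
    rw [← Finset.sum_Ico_consecutive _ hN hM]
    ring
  rw [h6]
  refine h5.trans ?_
  have h7 : 0 ≤ (M : ℝ) ^ (-s.re - 2) := by positivity
  have h8 : 0 ≤ ‖s‖ * ‖s + 1‖ * ‖s + 2‖ / (120 * (s.re + 2)) := by positivity
  exact mul_le_mul_of_nonneg_left (by linarith) h8

end Pool.Agent.H358R3.W
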