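import Mathlib
import Pool.Agent.H295R3.W.StmtsB
import Pool.Agent.H358R3.W.EM1

/-!
Euler-Maclaurin summation for `ζ(1 + i t)`.
-/

set_option autoImplicit false

open Finset Filter Topology Complex

namespace Pool.Agent.H358R3.W

theorem em_bound (N : ℕ) (t : ℝ) (hN : 1 ≤ N) (ht : t ≠ 0) (s : ℂ) (hs : s = 1 + (t : ℂ) * I) :
    ‖riemannZeta s - (∑ n ∈ Ico 1 N, (n : ℂ) ^ (-s) + (N : ℂ) ^ (1 - s) / (s - 1) +
      (N : ℂ) ^ (-s) / 2 + s / 12 * (N : ℂ) ^ (-s - 1))‖ ≤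
      ‖s‖ * ‖s + 1‖ * ‖s + 2‖ / (120 * (N : ℝ) ^ 3) := by
  have hN0 : (N : ℂ) ≠ 0 := by exact_mod_cast (by omega : N ≠ 0)
  have hNr : (0 : ℝ) < N := by exact_mod_cast hN
  have hs1 : s ≠ 1 := by
    rw [hs]
    intro h
    apply ht
    have := congrArg Complex.im h
    simpa using this
  have hre : s.re = 1 := by rw [hs]; simp
  -- the path
  set S : ℝ → ℂ := fun σ => (σ : ℂ) + (t : ℂ) * I with hS
  have hS1 : S 1 = s := by rw [hs, hS]; simp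
  have hSc : Continuous S := by rw [hS]; fun_prop
  have hSt : Tendsto S (𝓝[>] 1) (𝓝 s) := by
    rw [← hS1]
    exact (hSc.tendsto 1).mono_left nhdsWithin_le_nhds
  have hcp : ∀ (n : ℕ), n ≠ 0 → ∀ (g : ℂ → ℂ), Continuous g →
      Tendsto (fun σ => (n : ℂ) ^ (g (S σ))) (𝓝[>] 1) (𝓝 ((n : ℂ) ^ (g s))) := by
    intro n hn g hg
    have hn0 : (n : ℂ) ≠ 0 := by exact_mod_cast hn
    have h1 : Continuous fun z : ℂ => (n : ℂ) ^ z := continuous_id.const_cpow (Or.inl hn0)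
    exact ((h1.comp hg).tendsto s).comp hSt
  have hT : Tendsto (fun σ => T (S σ) N) (𝓝[>] 1) (𝓝 (T s N)) := by
    unfold T
    refine Tendsto.add (Tendsto.add (Tendsto.div (hcp N (by omega) (fun z => 1 - z) (by fun_prop))
      (hSt.sub_const 1) (sub_ne_zero.2 hs1)) ((hcp N (by omega) (fun z => -z)
      (by fun_prop)).div_const 2)) ((hSt.div_const 12).mul (hcp N (by omega) (fun z => -z - 1)
      (by fun_prop)))
  have hSum : Tendsto (fun σ => ∑ n ∈ Ico 1 N, (n : ℂ) ^ (-(S σ))) (𝓝[>] 1)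
      (𝓝 (∑ n ∈ Ico 1 N, (n : ℂ) ^ (-s))) := by
    refine tendsto_finsetSum _ fun n hn => ?_
    rw [Finset.mem_Ico] at hn
    exact hcp n (by omega) (fun z => -z) (by fun_prop)
  have hZ : Tendsto (fun σ => riemannZeta (S σ)) (𝓝[>] 1) (𝓝 (riemannZeta s)) :=
    ((differentiableAt_riemannZeta hs1).continuousAt.tendsto).comp hSt
  have hL := (hZ.sub (hSum.add hT)).norm
  have hR : Tendsto (fun σ => ‖S σ‖ * ‖S σ + 1‖ * ‖S σ + 2‖ / (120 * (σ + 2)) *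
      (N : ℝ) ^ (-σ - 2)) (𝓝[>] 1)
      (𝓝 (‖s‖ * ‖s + 1‖ * ‖s + 2‖ / (120 * (1 + 2)) * (N : ℝ) ^ (-1 - 2 : ℝ))) := by
    have hσ : Tendsto (fun σ : ℝ => σ) (𝓝[>] 1) (𝓝 1) :=
      tendsto_id.mono_left nhdsWithin_le_nhds
    refine Tendsto.mul (Tendsto.div ((hSt.norm.mul (hSt.add_const 1).norm).mul
      (hSt.add_const 2).norm) ((hσ.add_const 2).const_mul 120) (by norm_num)) ?_
    have h1 : Continuous fun z : ℝ => (N : ℝ) ^ z := Real.continuous_const_rpow hNr.ne'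
    exact (h1.tendsto (-1 - 2)).comp ((hσ.neg).sub_const 2)
  have hle : ‖riemannZeta s - (∑ n ∈ Ico 1 N, (n : ℂ) ^ (-s) + T s N)‖ ≤
      ‖s‖ * ‖s + 1‖ * ‖s + 2‖ / (120 * (1 + 2)) * (N : ℝ) ^ (-1 - 2 : ℝ) := by
    refine le_of_tendsto_of_tendsto hL hR ?_
    filter_upwards [self_mem_nhdsWithin] with σ hσ
    have hσ1 : (1 : ℝ) < σ := hσ
    have hre2 : (S σ).re = σ := by rw [hS]; simp
    have := tail (S σ) (by rw [hre2]; exact hσ1) N hN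
    rwa [hre2] at this
  have e1 : ∑ n ∈ Ico 1 N, (n : ℂ) ^ (-s) + (N : ℂ) ^ (1 - s) / (s - 1) + (N : ℂ) ^ (-s) / 2 +
      s / 12 * (N : ℂ) ^ (-s - 1) = ∑ n ∈ Ico 1 N, (n : ℂ) ^ (-s) + T s N := by
    unfold T
    ring
  rw [e1]
  refine hle.trans ?_
  have e2 : (N : ℝ) ^ (-1 - 2 : ℝ) = ((N : ℝ) ^ 3)⁻¹ := by
    rw [show (-1 - 2 : ℝ) = -((3 : ℕ) : ℝ) by norm_num, Real.rpow_neg hNr.le, Real.rpow_natCast]
  rw [e2]
  have h0 : 0 ≤ ‖s‖ * ‖s + 1‖ * ‖s + 2‖ := by positivity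
  have h3 : (0 : ℝ) < (N : ℝ) ^ 3 := by positivity
  rw [← div_eq_mul_inv, div_div, div_le_div_iff₀ (by positivity) (by positivity)]
  nlinarith [mul_nonneg h0 h3.le]

theorem taskEM : Pool.Agent.H295R3.W.TaskEM := by
  intro N t hN ht s hs
  exact em_bound N t hN ht s hs

end Pool.Agent.H358R3.W
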